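import Pool.Agent.N343.LT.Stm

set_option autoImplicit false
set_option linter.all false

namespace Pool.Agent.N195.LT.BAS

open MvPolynomial Finset Pool.Agent.Helper929 Pool.Agent.H604R2.LEC Pool.Agent.N343.LT
  Pool.Agent.Y819.ZF

/-- the multiplicities -/
def A0 (k N : ℕ) : Fin k × Bool → Fin k × Bool → ℕ :=
  fun c d => if c.2 = d.2 then 0 else if c.1 = d.1 then N - 1 else N

/-- the pairing -/
def ph (k : ℕ) : Fin k × Bool → Fin k × Bool := fun c => (c.1, !c.2)

/-- the numbering -/
def e0 (k m : ℕ) : (Fin k × Bool) × Fin m ≃ Fin (k * m + k * m) where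
  toFun x := bif x.1.2 then Fin.natAdd (k * m) (finProdFinEquiv (x.1.1, x.2)) else
    Fin.castAdd (k * m) (finProdFinEquiv (x.1.1, x.2))
  invFun v := Fin.addCases
    (fun a => (((finProdFinEquiv.symm a).1, false), (finProdFinEquiv.symm a).2))
    (fun a => (((finProdFinEquiv.symm a).1, true), (finProdFinEquiv.symm a).2)) v
  left_inv := by
    rintro ⟨⟨i, b⟩, s⟩
    cases b
    · simp only [cond_false, Fin.addCases_left, Equiv.symm_apply_apply]
    · simp only [cond_true, Fin.addCases_right, Equiv.symm_apply_apply]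
  right_inv := by
    intro v
    refine Fin.addCases (fun a => ?_) (fun a => ?_) v
    · simp only [Fin.addCases_left, cond_false, Prod.mk.eta, Equiv.apply_symm_apply]
    · simp only [Fin.addCases_right, cond_true, Prod.mk.eta, Equiv.apply_symm_apply]

lemma e0_left (k m : ℕ) (a : Fin (k * m)) : (e0 k m).symm (Fin.castAdd (k * m) a) =
    (((finProdFinEquiv.symm a).1, false), (finProdFinEquiv.symm a).2) := by
  unfold e0
  simp only [Equiv.coe_fn_symm_mk, Fin.addCases_left]

lemma e0_right (k m : ℕ) (a : Fin (k * m)) : (e0 k m).symm (Fin.natAdd (k * m) a) =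
    (((finProdFinEquiv.symm a).1, true), (finProdFinEquiv.symm a).2) := by
  unfold e0
  simp only [Equiv.coe_fn_symm_mk, Fin.addCases_right]

lemma cross (k m N : ℕ) (hN : 1 ≤ N) (a b : Fin (k * m)) (β : Bool) :
    MI (A0 k N) m (ph k) (((finProdFinEquiv.symm a).1, β), (finProdFinEquiv.symm a).2)
      (((finProdFinEquiv.symm b).1, !β), (finProdFinEquiv.symm b).2) =
    if a = b then N - 1 else N := by
  obtain ⟨⟨i, s⟩, rfl⟩ := (finProdFinEquiv (m := k) (n := m)).surjective a
  obtain ⟨⟨j, t⟩, rfl⟩ := (finProdFinEquiv (m := k) (n := m)).surjective b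
  unfold MI A0 ph
  simp only [Equiv.symm_apply_apply, (finProdFinEquiv (m := k) (n := m)).injective.eq_iff,
    Prod.mk.injEq]
  by_cases hij : i = j
  · subst hij
    by_cases hst : s = t
    · subst hst
      simp
    · simp [hst]
      omega
  · have hji : ¬ j = i := fun h => hij h.symm
    simp [hij, hji]

lemma same (k m N : ℕ) (i j : Fin k) (s t : Fin m) (β : Bool) :
    MI (A0 k N) m (ph k) ((i, β), s) ((j, β), t) = 0 := by
  unfold MI A0 ph
  simp

lemma eqbip (k m N : ℕ) (hN : 1 ≤ N) (v w : Fin (k * m + k * m)) :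
    MI (A0 k N) m (ph k) ((e0 k m).symm v) ((e0 k m).symm w) =
      bipS (fun i j : Fin (k * m) => if i = j then N - 1 else N) v w := by
  unfold bipS
  refine Fin.addCases (fun a => ?_) (fun a => ?_) v
  · refine Fin.addCases (fun b => ?_) (fun b => ?_) w
    · rw [e0_left, e0_left, Fin.addCases_left, Fin.addCases_left, same]
    · rw [e0_left, e0_right, Fin.addCases_left, Fin.addCases_right]
      exact cross k m N hN a b false
  · refine Fin.addCases (fun b => ?_) (fun b => ?_) w
    · rw [e0_left, e0_right, Fin.addCases_right, Fin.addCases_left]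
      have := cross k m N hN a b true
      rw [show (!true) = false from rfl] at this
      rw [this]
      refine if_congr ⟨fun h => h.symm, fun h => h.symm⟩ rfl rfl
    · rw [e0_right, e0_right, Fin.addCases_right, Fin.addCases_right, same]

lemma sumA (k N : ℕ) (hN : 1 ≤ N) (c : Fin k × Bool) : ∑ d, A0 k N c d = k * N - 1 := by
  obtain ⟨i, b⟩ := c
  have hk : 1 ≤ k := by
    have := i.2
    omega
  have h1 : ∑ d, A0 k N (i, b) d = ∑ j : Fin k, (if i = j then N - 1 else N) := by
    rw [Fintype.sum_prod_type]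
    refine Finset.sum_congr rfl fun j _ => ?_
    rw [Fintype.sum_bool]
    unfold A0
    cases b <;> simp
  rw [h1, ← Finset.add_sum_erase univ _ (mem_univ i), if_pos rfl]
  have h2 : ∑ j ∈ univ.erase i, (if i = j then N - 1 else N) = (k - 1) * N := by
    rw [Finset.sum_congr rfl (g := fun _ => N)]
    · rw [Finset.sum_const, Finset.card_erase_of_mem (mem_univ _), Finset.card_univ,
        Fintype.card_fin, smul_eq_mul]
    · intro j hj
      rw [if_neg (Finset.ne_of_mem_erase hj).symm]
  rw [h2]
  obtain ⟨k', rfl⟩ : ∃ k', k = k' + 1 := ⟨k - 1, by omega⟩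
  rw [Nat.add_sub_cancel, Nat.add_mul, one_mul]
  generalize k' * N = z
  omega

lemma regid (p k m N : ℕ) (hN : 1 ≤ N) (hk : 1 ≤ k) (hm : 1 ≤ m) (h : m * (k * N) = p - 1) :
    RegM (p - 2) (MI (A0 k N) m id) := by
  refine ⟨inferInstance, ?_, ?_, ?_⟩
  · rintro ⟨⟨i, b⟩, s⟩ ⟨⟨j, b'⟩, t⟩
    unfold MI A0
    simp only [id, Prod.mk.injEq]
    congr 1
    · simp only [eq_comm]
    · simp only [eq_comm, ne_comm]
  · rintro ⟨⟨i, b⟩, s⟩
    unfold MI A0
    simp
  · rintro ⟨c, s⟩
    rw [finsum_eq_sum_of_fintype, Fintype.sum_prod_type]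
    unfold MI
    simp only [id, Finset.sum_add_distrib, Finset.sum_const, Finset.card_univ, Fintype.card_fin,
      smul_eq_mul]
    rw [← Finset.mul_sum, sumA k N hN c]
    have h1 : ∑ d : Fin k × Bool, ∑ t : Fin m, (if d = c ∧ s ≠ t then 1 else 0) = m - 1 := by
      rw [Finset.sum_eq_single c]
      · simp only [true_and]
        rw [Finset.sum_ite, Finset.sum_const_zero, add_zero, Finset.sum_const, smul_eq_mul, mul_one]
        have : (univ.filter fun t : Fin m => s ≠ t) = univ.erase s := by
          ext t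
          simp [eq_comm]
        rw [this, Finset.card_erase_of_mem (mem_univ _), Finset.card_univ, Fintype.card_fin]
      · intro d _ hd
        simp [hd]
      · intro h
        exact absurd (mem_univ _) h
    rw [h1]
    have h3 : 1 ≤ k * N := Nat.mul_pos hk hN
    obtain ⟨z, hz⟩ : ∃ z, k * N = z + 1 := ⟨k * N - 1, by omega⟩
    rw [hz] at h ⊢
    rw [Nat.add_sub_cancel]
    rw [Nat.mul_add, mul_one] at h
    omega

theorem main (hCPI : S_CPI) (hBIP : S_BIP) (hDETC : S_DETC) (hNUM : S_NUM) : S_BAS := by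
  intro p hp hp2 m k N h
  have hp2' := hp.out.two_le
  have hpos : 0 < m * (k * N) := by omega
  have hm : 1 ≤ m := Nat.pos_of_mul_pos_right hpos
  have hkN : 0 < k * N := Nat.pos_of_mul_pos_left hpos
  have hk : 1 ≤ k := Nat.pos_of_mul_pos_right hkN
  have hN : 1 ≤ N := Nat.pos_of_mul_pos_left hkN
  have hmp : m < p := by
    have : m ≤ m * (k * N) := Nat.le_mul_of_pos_right m hkN
    omega
  have hreg := regid p k m N hN hk hm h
  have h1 := hCPI p hp2 (Fin k × Bool) (A0 k N) m (ph k) hmp (by
    rintro ⟨i, b⟩ ⟨j, b'⟩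
    unfold A0
    simp only [eq_comm]) (by
    rintro ⟨i, b⟩
    unfold A0
    simp) (by
    rintro ⟨i, b⟩
    unfold ph
    simp) hreg
  refine ⟨hreg, h1.2.2 ?_⟩
  have hK : k * m * N = p - 1 := by
    rw [← h]
    ring
  have hNp : N < p := by
    have : N ≤ k * m * N := Nat.le_mul_of_pos_left N (Nat.mul_pos hk hm)
    omega
  have h2 := hBIP p (k * m) (fun i j => if i = j then N - 1 else N) (by
    intro i j
    split_ifs <;> omega) (hDETC p hp2 (k * m) N hK)
  intro n e
  have hn : n = k * m + k * m := by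
    have h3 := Fintype.card_congr e
    have h4 := Fintype.card_congr (e0 k m)
    rw [h3, Fintype.card_fin, Fintype.card_fin] at h4
    exact h4
  subst hn
  refine hNUM p (p - 2) _ _ h1.1.symm _ (e0 k m) e ?_
  have h5 : nm (MI (A0 k N) m (ph k)) (e0 k m) =
      fun x : Ed (k * m + k * m) => bipS (fun i j : Fin (k * m) => if i = j then N - 1 else N)
        x.1.1 x.1.2 := by
    funext x
    unfold nm
    exact eqbip k m N hN _ _
  rw [h5]
  exact h2

end Pool.Agent.N195.LT.BAS
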