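import Pool.Agent.N343.LT.Stm

set_option autoImplicit false
set_option linter.all false

namespace Pool.Agent.N195.LT.HEX

open Pool.Agent.N343.LT Pool.Agent.Y819.ZF

/-- the six clusters -/
def E6 : ZMod 6 ≃ Fin 3 × Fin 2 where
  toFun c := if c = 0 then (0, 0) else if c = 1 then (1, 0) else if c = 2 then (1, 1) else
    if c = 3 then (2, 0) else if c = 4 then (2, 1) else (0, 1)
  invFun q := if q = (0, 0) then 0 else if q = (1, 0) then 1 else if q = (1, 1) then 2 else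
    if q = (2, 0) then 3 else if q = (2, 1) then 4 else 5
  left_inv := by decide
  right_inv := by decide

lemma adj6 (c d : ZMod 6) : (powC 6 1)ᶜ.Adj c d ↔ c ≠ d ∧ ¬ (d = c + 1 ∨ c = d + 1) := by
  have hp : (powC 6 1).Adj c d ↔ c ≠ d ∧ (d = c + 1 ∨ c = d + 1) := by
    unfold powC
    rw [SimpleGraph.fromRel_adj]
    constructor
    · rintro ⟨h, h2⟩
      refine ⟨h, ?_⟩
      rcases h2 with ⟨j, h1, h2, h3⟩ | ⟨j, h1, h2, h3⟩
      · have : j = 1 := le_antisymm h2 h1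
        subst this
        left
        simpa using h3
      · have : j = 1 := le_antisymm h2 h1
        subst this
        right
        simpa using h3
    · rintro ⟨h, h2⟩
      refine ⟨h, ?_⟩
      rcases h2 with h3 | h3
      · left
        exact ⟨1, le_refl _, le_refl _, by simpa using h3⟩
      · right
        exact ⟨1, le_refl _, le_refl _, by simpa using h3⟩
  rw [SimpleGraph.compl_adj, hp]
  tauto

/-- the bijection -/
def eq6 (m : ℕ) : ZMod 6 × Fin m ≃ Fin 3 × Fin (2 * m) :=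
  ((E6.prodCongr (Equiv.refl (Fin m))).trans (Equiv.prodAssoc _ _ _)).trans
    ((Equiv.refl (Fin 3)).prodCongr finProdFinEquiv)

lemma eq6_fst (m : ℕ) (x : ZMod 6 × Fin m) : (eq6 m x).1 = (E6 x.1).1 := by
  rcases x with ⟨c, s⟩
  rfl

lemma phi6_inv : ∀ c : ZMod 6, φ6 (φ6 c) = c := by
  unfold φ6
  decide

lemma phi6_part : ∀ c : ZMod 6, (E6 (φ6 c)).1 ≠ (E6 c).1 := by
  unfold φ6 E6
  decide

lemma key : ∀ c d : ZMod 6, (if c ≠ d ∧ ¬ (d = c + 1 ∨ c = d + 1) then 1 else 0) +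
    (if d = φ6 c ∧ (True : Prop) then 1 else 0) = if (E6 c).1 ≠ (E6 d).1 then 1 else 0 := by
  unfold φ6 E6
  decide

lemma key2 : ∀ c d : ZMod 6, (if c ≠ d ∧ ¬ (d = c + 1 ∨ c = d + 1) then 1 else 0) =
    if (E6 c).1 ≠ (E6 d).1 ∧ d ≠ φ6 c ∧ c ≠ φ6 d then 1 else 0 := by
  unfold φ6 E6
  decide

theorem main : S_HEX := by
  intro m
  refine ⟨eq6 m, fun v => eq6 m (φ6 ((eq6 m).symm v).1, ((eq6 m).symm v).2), ?_, ?_, ?_⟩
  · intro v
    obtain ⟨x, rfl⟩ := (eq6 m).surjective v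
    simp [phi6_inv]
  · intro v
    obtain ⟨x, rfl⟩ := (eq6 m).surjective v
    simp only [Equiv.symm_apply_apply]
    rw [eq6_fst, eq6_fst]
    exact phi6_part x.1
  · rintro ⟨c, s⟩ ⟨d, t⟩
    unfold MI ind
    simp only [adj6]
    have hK : (K3m (2 * m) (fun v => eq6 m (φ6 ((eq6 m).symm v).1, ((eq6 m).symm v).2))).Adj
        (eq6 m (c, s)) (eq6 m (d, t)) ↔
        (E6 c).1 ≠ (E6 d).1 ∧ ¬ (d = φ6 c ∧ t = s) ∧ ¬ (c = φ6 d ∧ s = t) := by
      unfold K3m
      simp only [Equiv.symm_apply_apply, eq6_fst, ne_eq, (eq6 m).injective.eq_iff, Prod.mk.injEq]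
    by_cases hst : s = t
    · subst hst
      simp only [hK]
      simpa using key2 c d
    · have hts : ¬ t = s := fun h => hst h.symm
      simp only [hK]
      simpa [hst, hts] using key c d

end Pool.Agent.N195.LT.HEX
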